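import Mathlib
import Pool.Agent.MP_47cbd1_al.Relations

set_option autoImplicit false

/-!
Every pair `(1 + 2 m, f)` satisfying the two relations (I) and (II) of the profinite
Grothendieck-Teichmuller monoid is invertible: the endomorphism `x ↦ x ^ (1 + 2 m)`,
`y ↦ f⁻¹ y ^ (1 + 2 m) f` of the free profinite group on `x`, `y` is an automorphism.
-/

namespace Pool.Agent.Results.MP_47cbd1_al.GTInvertible

open Pool.Agent.GT

theorem result (m : Zhat) (f : F2) (hm : IsUnitZ (oneAddTwo m)) (hI : RelI f)
    (hII : RelII m f) : Function.Bijective (phi (oneAddTwo m) f) := by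
  obtain ⟨g, hg⟩ := phi_xy_of_relations m f hI hII
  exact bijective_of_conj (phi (oneAddTwo m) f) (oneAddTwo m) hm f g (ev_x _ _) (ev_y _ _) hg

end Pool.Agent.Results.MP_47cbd1_al.GTInvertible
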