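import Mathlib
import Pool.Agent.MP_47cbd1_al.Relations

set_option autoImplicit false

/-!
The element `f = y x y⁻¹ x⁻¹` lies in the derived subgroup of the free profinite group on `x`,
`y` and satisfies relation (I), but the endomorphism `x ↦ x ^ l`, `y ↦ f⁻¹ y ^ l f` is not
surjective for any profinite integer `l`.
-/

namespace Pool.Agent.Results.MP_47cbd1_al.NotInvertible

open Pool.Agent.GT

/-- Compatibility of the evaluation maps. -/
theorem evF_ev {W : Type} [Group W] [Finite W] (u v : W) (a b w : F2) :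
    evF u v (ev a b w) = evF (evF u v a) (evF u v b) w :=
  map_ev (P := F2) (Q := Fg W) (ev (P := Fg W) u v) a b w

/-- If the images of `x` and `y` in the symmetric group on three letters are two different
transpositions, the image of `phi l f` is cyclic. -/
theorem not_surjective (l : Zhat) :
    ¬ Function.Surjective (phi l (y * x * y⁻¹ * x⁻¹)) := by
  intro hs
  set s : Equiv.Perm (Fin 3) := Equiv.swap 0 1 with hsdef
  set t : Equiv.Perm (Fin 3) := Equiv.swap 0 2 with htdef
  obtain ⟨n, hn⟩ := exists_int (Equiv.Perm (Fin 3)) l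
  set f : F2 := y * x * y⁻¹ * x⁻¹ with hf
  have hfim : evF s t f = t * s * t⁻¹ * s⁻¹ := by
    rw [hf, map_mul, map_mul, map_mul, map_inv, map_inv, evF_x, evF_y]
  have hconj : (evF s t f)⁻¹ * t * evF s t f = s := by
    rw [hfim]
    decide
  have h1 : evF s t (ppow x l) = s ^ n := by
    rw [evF_ppow, hn, evF_x]
  have h2 : evF s t (f⁻¹ * ppow y l * f) = s ^ n := by
    rw [map_mul, map_mul, map_inv, evF_ppow, hn, evF_y]
    have e : (evF s t f)⁻¹ * t ^ n * evF s t f =
        ((evF s t f)⁻¹ * t * ((evF s t f)⁻¹)⁻¹) ^ n := by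
      rw [conj_zpow, inv_inv]
    rw [e, inv_inv, hconj]
  have h3 : ∀ w : F2, evF s t (phi l f w) ∈ Subgroup.zpowers s := by
    intro w
    rw [phi, evF_ev, h1, h2]
    let sn : Subgroup.zpowers s := ⟨s ^ n, n, rfl⟩
    have h4 := map_evF (Subgroup.zpowers s).subtype sn sn w
    have h5 : evF (s ^ n) (s ^ n) w = (Subgroup.zpowers s).subtype (evF sn sn w) := h4.symm
    rw [h5]
    exact (evF sn sn w).2
  obtain ⟨wy, hwy⟩ := hs y
  have h6 := h3 wy
  rw [hwy, evF_y] at h6
  obtain ⟨k, hk⟩ := Subgroup.mem_zpowers_iff.1 h6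
  have hcomm : s * t = t * s := by
    rw [← hk, ← zpow_one_add, ← zpow_add_one, add_comm]
  revert hcomm
  decide

theorem result : ∃ f : F2, f ∈ (commutator F2).topologicalClosure ∧ RelI f ∧
    ∀ l : Zhat, ¬ Function.Surjective (phi l f) := by
  refine ⟨y * x * y⁻¹ * x⁻¹, ?_, ?_, not_surjective⟩
  · apply Subgroup.le_topologicalClosure
    rw [commutator_def]
    exact Subgroup.commutator_mem_commutator (Subgroup.mem_top y) (Subgroup.mem_top x)
  · unfold RelI
    rw [map_mul, map_mul, map_mul, map_inv, map_inv, ev_x, ev_y]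
    group

end Pool.Agent.Results.MP_47cbd1_al.NotInvertible
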